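import Pool.Agent.K1H49.PL.Gen

/-! Project PL, general case: the extension step. -/

set_option autoImplicit false

namespace Pool.Agent.K1H28.PLG

open Pool.Agent.K1H49.PL

universe u

variable {M : Type u}

theorem fin_LN (n : ℕ) : Finite (LN n) := (List.finite_length_le Bool n).to_subtype

theorem ext_pt {a N : ℕ} (h : a ≤ N) (e : LN a → Nd) (he : Pt ndl a e) :
    ∃ e' : LN N → Nd, Pt ndl N e' ∧ ∀ η : LN a, e' ⟨η.1, le_trans η.2 h⟩ = e η := by
  refine ⟨fun η => e ⟨η.1.take a, by simp⟩ ++ η.1.drop a, ?_, ?_⟩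
  · rintro ⟨η, hη⟩ ⟨η', hη'⟩ d hd
    simp only at hd
    show (e ⟨η.take a, _⟩ ++ η.drop a) ++ [d] <+: e ⟨η'.take a, _⟩ ++ η'.drop a
    by_cases hl : η.length < a
    · have h1 : η.take a = η := List.take_of_length_le (by omega)
      have h2 : η.drop a = [] := List.drop_of_length_le (by omega)
      have h3 : (η ++ [d]) <+: η'.take a := by
        have := hd.take a
        rwa [List.take_of_length_le (by simp; omega)] at this
      have h4 := he ⟨η.take a, by simp⟩ ⟨η'.take a, by simp⟩ d (by simpa [h1] using h3)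
      have h5 : e ⟨η.take a, by simp⟩ ++ [d] <+: e ⟨η'.take a, by simp⟩ := h4
      rw [h2, List.append_nil]
      exact h5.trans (List.prefix_append _ _)
    · obtain ⟨r, rfl⟩ := hd
      have h1 : (η ++ [d] ++ r).take a = η.take a := by
        rw [List.append_assoc, List.take_append_of_le_length (by omega)]
      have h2 : (η ++ [d] ++ r).drop a = η.drop a ++ [d] ++ r := by
        rw [List.append_assoc, List.drop_append_of_le_length (by omega), List.append_assoc]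
      have h3 : (⟨(η ++ [d] ++ r).take a, by simp⟩ : LN a) = ⟨η.take a, by simp⟩ :=
        Subtype.ext h1
      rw [h2, h3]
      exact ⟨r, by simp⟩
  · rintro ⟨η, hη⟩
    have h1 : (⟨η.take a, by simp⟩ : LN a) = ⟨η, hη⟩ :=
      Subtype.ext (List.take_of_length_le hη)
    show e ⟨η.take a, _⟩ ++ η.drop a = e ⟨η, hη⟩
    rw [h1, List.drop_of_length_le hη, List.append_nil]

theorem irr {I : Type} {lt : Bool → I → I → Prop} (hB : BT lt) (d : Bool) (a : I) :
    ¬ lt d a a := by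
  intro h
  exact (hB.wf.irrefl.irrefl a) ⟨d, h⟩

open Classical in
/-- merging of patterns -/
noncomputable def mg {I : Type} (lt : Bool → I → I → Prop) (π : I) (C0 C1 : Nd → I) {a : ℕ}
    (E0 : LN a → I) (e0 e1 : LN a → Nd) (η : LN a) : I :=
  if lt false π (E0 η) then C0 (e0 η) else if lt true π (E0 η) then C1 (e1 η) else E0 η

theorem mg_pt {I : Type} {lt : Bool → I → I → Prop} (hB : BT lt) {π : I} {C0 C1 : Nd → I}
    (h0 : Cpy lt C0) (h0' : ∀ ρ, lt false π (C0 ρ)) (h1 : Cpy lt C1)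
    (h1' : ∀ ρ, lt true π (C1 ρ)) {a : ℕ} {E0 : LN a → I} (hE : Pt lt a E0)
    {e0 e1 : LN a → Nd} (he0 : Pt ndl a e0) (he1 : Pt ndl a e1) :
    Pt lt a (mg lt π C0 C1 E0 e0 e1) := by
  have out : ∀ (b c : I) (d' d : Bool) (z : I), lt d' b c → ¬ lt false π b → ¬ lt true π b →
      lt d π c → lt d π z → lt d' b z := by
    intro b c d' d z hbc hn0 hn1 hc hz
    rcases hB.lin hbc hc with h | ⟨e, h⟩ | ⟨e, h⟩
    · subst h
      rw [hB.uniq hbc hc]
      exact hz
    · have := hB.trans h hc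
      have e1 := hB.uniq hbc this
      subst e1
      exact hB.trans h hz
    · cases e
      · exact absurd h hn0
      · exact absurd h hn1
  intro η η' d hd
  have hl := hE η η' d hd
  have g0 := h0 (e0 η) (e0 η') d (he0 η η' d hd)
  have g1 := h1 (e1 η) (e1 η') d (he1 η η' d hd)
  unfold mg
  by_cases a0 : lt false π (E0 η)
  · have b0 : lt false π (E0 η') := hB.trans a0 hl
    rw [if_pos a0, if_pos b0]
    exact g0
  · by_cases a1 : lt true π (E0 η)
    · have b1 : lt true π (E0 η') := hB.trans a1 hl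
      have b0 : ¬ lt false π (E0 η') := fun h => by have := hB.uniq h b1; simp at this
      rw [if_neg a0, if_pos a1, if_neg b0, if_pos b1]
      exact g1
    · rw [if_neg a0, if_neg a1]
      by_cases b0 : lt false π (E0 η')
      · rw [if_pos b0]
        exact out _ _ _ _ _ hl a0 a1 b0 (h0' _)
      · by_cases b1 : lt true π (E0 η')
        · rw [if_neg b0, if_pos b1]
          exact out _ _ _ _ _ hl a0 a1 b1 (h1' _)
        · rw [if_neg b0, if_neg b1]
          exact hl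

/-- families -/
def fam {K : Type} {m : ℕ} {dg : K → ℕ} (e0 e1 : LN m → Nd) (E : ∀ k, LN (dg k) → Nd) :
    ∀ k : Option (Option K), LN (dgo m (dgo m dg) k) → Nd
  | none => e0
  | some none => e1
  | some (some k) => E k

def famN {K : Type} {N : ℕ} (e0 e1 : LN N → Nd) (E : K → LN N → Nd) :
    Option (Option K) → LN N → Nd
  | none => e0
  | some none => e1
  | some (some k) => E k

theorem famN_pt {K : Type} {N : ℕ} {e0 e1 : LN N → Nd} {E : K → LN N → Nd} (h0 : Pt ndl N e0)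
    (h1 : Pt ndl N e1) (h2 : ∀ k, Pt ndl N (E k)) : ∀ k, Pt ndl N (famN e0 e1 E k)
  | none => h0
  | some none => h1
  | some (some k) => h2 k

theorem fam_pt {K : Type} {m : ℕ} {dg : K → ℕ} {e0 e1 : LN m → Nd} {E : ∀ k, LN (dg k) → Nd}
    (h0 : Pt ndl m e0) (h1 : Pt ndl m e1) (h2 : ∀ k, Pt ndl _ (E k)) :
    ∀ k : Option (Option K), Pt ndl _ (fam e0 e1 E k)
  | none => h0
  | some none => h1
  | some (some k) => h2 k

/-- the family `T` -/
def TT {K ι I : Type} (w : I → ι → M) (s : K → Nd → ι → M) (C0 C1 : Nd → I) :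
    Option (Option K) → Nd → ι → M
  | none => fun η => w (C0 η)
  | some none => fun η => w (C1 η)
  | some (some k) => s k

def fp0 {X K ι I : Type} {m : ℕ} {dg : K → ℕ} (π : I) :
    LN (m + 1) → ι → (X ⊕ (I × ι)) ⊕ ((Σ k, LN (dgo m (dgo m dg) k)) × ι)
  | ⟨[], _⟩, i => .inl (.inr (π, i))
  | ⟨false :: l, h⟩, i => .inr (⟨none, ⟨l, show l.length ≤ m by simpa using h⟩⟩, i)
  | ⟨true :: l, h⟩, i => .inr (⟨some none, ⟨l, show l.length ≤ m by simpa using h⟩⟩, i)

def fp {X K ι I : Type} {m : ℕ} {dg : K → ℕ} (π : I) :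
    X ⊕ ((Σ k, LN (dgo (m + 1) dg k)) × ι) →
      (X ⊕ (I × ι)) ⊕ ((Σ k, LN (dgo m (dgo m dg) k)) × ι)
  | .inl a => .inl (.inl a)
  | .inr (⟨none, η⟩, i) => fp0 (dg := dg) π η i
  | .inr (⟨some k, η⟩, i) => .inr (⟨some (some k), η⟩, i)

open Classical in
/-- the index map of the conditions -/
noncomputable def fN {X K ι I : Type} (lt : Bool → I → I → Prop) (π : I) {n : ℕ} (E0 : LN n → I) :
    X ⊕ (Option K × LN n × ι) → (X ⊕ (I × ι)) ⊕ (Option (Option K) × LN n × ι)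
  | .inl a => .inl (.inl a)
  | .inr (none, η, i) => if lt false π (E0 η) then .inr (none, η, i) else
      if lt true π (E0 η) then .inr (some none, η, i) else .inl (.inr (E0 η, i))
  | .inr (some k, η, i) => .inr (some (some k), η, i)

open Classical in
noncomputable def fS {X K ι I : Type} (lt : Bool → I → I → Prop) (π : I) {a N : ℕ} {dg : K → ℕ}
    (ha : a ≤ N) (hN : ∀ k, dg k ≤ N) (E0 : LN a → I) :
    X ⊕ ((Σ k, LN (dgo a dg k)) × ι) → (X ⊕ (I × ι)) ⊕ (Option (Option K) × LN N × ι)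
  | .inl a => .inl (.inl a)
  | .inr (⟨none, η⟩, i) => if lt false π (E0 η) then .inr (none, ⟨η.1, le_trans η.2 ha⟩, i) else
      if lt true π (E0 η) then .inr (some none, ⟨η.1, le_trans η.2 ha⟩, i) else
        .inl (.inr (E0 η, i))
  | .inr (⟨some k, η⟩, i) => .inr (some (some k), ⟨η.1, le_trans η.2 (hN k)⟩, i)

open Classical in
/-- the candidate -/
noncomputable def cd {K ι I : Type} (lt : Bool → I → I → Prop) (π : I) (w : I → ι → M)
    (u : Option (Option K) → Nd → ι → M) (g : I → Nd) (ρ : I) (i : ι) : M :=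
  if lt false π ρ then u none (g ρ) i else if lt true π ρ then u (some none) (g ρ) i else w ρ i

/-- `g` is good on the range of `E0` -/
def Gd {I : Type} (lt : Bool → I → I → Prop) (g : I → Nd) (P : Set I) : Prop :=
  ∀ a ∈ P, ∀ b ∈ P, ∀ d, lt d a b → (g a ++ [d]) <+: g b

theorem Gd.pt {I : Type} {lt : Bool → I → I → Prop} {g : I → Nd} {a : ℕ} {E0 : LN a → I}
    (h : Gd lt g (Set.range E0)) (hE : Pt lt a E0) : Pt ndl a (fun η => g (E0 η)) :=
  fun η η' d hd => h _ ⟨η, rfl⟩ _ ⟨η', rfl⟩ d (hE η η' d hd)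

section

variable {X K ι I : Type} {lt : Bool → I → I → Prop} (hB : BT lt) {π : I} {C0 C1 : Nd → I}
    (h0 : Cpy lt C0) (h0' : ∀ ρ, lt false π (C0 ρ)) (h1 : Cpy lt C1)
    (h1' : ∀ ρ, lt true π (C1 ρ)) {Y : Sys M} {x : X → M} {w : I → ι → M} {s : K → Nd → ι → M}
    {u : Option (Option K) → Nd → ι → M}
    (hu : ∀ (n : ℕ) (S : Set ((X ⊕ (I × ι)) ⊕ (Option (Option K) × LN n × ι) → M)), Y.D S →
      HK (Sum.elim x (fun p : I × ι => w p.1 p.2)) (TT w s C0 C1) n S →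
      HK (Sum.elim x (fun p : I × ι => w p.1 p.2)) u n S)

include hB h0 h0' h1 h1' hu

theorem cond1 {n : ℕ} {S : Set (X ⊕ (Option K × LN n × ι) → M)} (hS : Y.D S)
    (hw : HX lt x w s n S) {E0 : LN n → I} {E : K → LN n → Nd} (hE0 : Pt lt n E0)
    (hE : ∀ k, Pt ndl n (E k)) {g : I → Nd} (hg : Gd lt g (Set.range E0)) :
    Sum.elim x (fun p : Option K × LN n × ι => p.1.elim (cd lt π w u g (E0 p.2.1) p.2.2)
      (fun k => u (some (some k)) (E k p.2.1) p.2.2)) ∈ S := by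
  have key := hu n {v | (v ∘ fN lt π E0) ∈ S} (Y.pull _ hS) (by
    intro E'' hE''
    have h := hw (mg lt π C0 C1 E0 (E'' none) (E'' (some none)))
      (fun k => E'' (some (some k))) (mg_pt hB h0 h0' h1 h1' hE0 (hE'' _) (hE'' _))
      (fun k => hE'' _)
    show _ ∈ S
    convert h using 1
    funext p
    rcases p with a | ⟨_ | k, η, i⟩
    · rfl
    · simp only [Function.comp, fN, Sum.elim_inr, Option.elim, mg]
      split_ifs <;> rfl
    · rfl)
  have h := key (famN (fun η => g (E0 η)) (fun η => g (E0 η)) E) (famN_pt (hg.pt hE0)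
    (hg.pt hE0) hE)
  have h2 : _ ∈ S := h
  convert h2 using 1
  funext p
  rcases p with a | ⟨_ | k, η, i⟩
  · rfl
  · simp only [Function.comp, fN, Sum.elim_inr, Option.elim, cd]
    split_ifs <;> rfl
  · rfl

theorem cond2 {a : ℕ} {dg : K → ℕ} [Finite K]
    {S : Set (X ⊕ ((Σ k, LN (dgo a dg k)) × ι) → M)} (hS : Y.D S) {q : I}
    (hq : ∀ d, ¬ lt d π q)
    (hw : ∀ (E0 : LN a → I) (E : ∀ k, LN (dg k) → Nd), Pt lt a E0 → (∀ k, Pt ndl _ (E k)) →
      E0 (rt a) = q → tpx x w s E0 E ∈ S)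
    {E0 : LN a → I} {E : ∀ k, LN (dg k) → Nd} (hE0 : Pt lt a E0)
    (hE : ∀ k, Pt ndl _ (E k)) (hr : E0 (rt a) = q) {g : I → Nd}
    (hg : Gd lt g (Set.range E0)) :
    tpx x (cd lt π w u g) (fun k => u (some (some k))) E0 E ∈ S := by
  obtain ⟨N0, hN0⟩ := (Set.finite_range dg).bddAbove
  have hN : ∀ k, dg k ≤ max a N0 := fun k => le_trans (hN0 ⟨k, rfl⟩) (le_max_right _ _)
  have ha : a ≤ max a N0 := le_max_left _ _
  generalize max a N0 = N at hN ha
  have key := hu N {v | (v ∘ fS lt π ha hN E0) ∈ S} (Y.pull _ hS) (by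
    intro E'' hE''
    have h := hw (mg lt π C0 C1 E0 (fun η => E'' none ⟨η.1, le_trans η.2 ha⟩)
      (fun η => E'' (some none) ⟨η.1, le_trans η.2 ha⟩))
      (fun k η => E'' (some (some k)) ⟨η.1, le_trans η.2 (hN k)⟩)
      (mg_pt hB h0 h0' h1 h1' hE0 (fun η η' d hd => hE'' _ _ _ d hd)
        (fun η η' d hd => hE'' _ _ _ d hd))
      (fun k η η' d hd => hE'' _ _ _ d hd)
      (by
        unfold mg
        rw [hr, if_neg (hq _), if_neg (hq _)])
    show _ ∈ S
    convert h using 1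
    funext p
    rcases p with a | ⟨⟨_ | k, η⟩, i⟩
    · rfl
    · simp only [Function.comp, fS, Sum.elim_inr, tpx, mg]
      split_ifs <;> rfl
    · rfl)
  obtain ⟨e, he, he'⟩ := ext_pt ha _ (hg.pt hE0)
  choose E2 hE2 hE2' using fun k => ext_pt (hN k) (E k) (hE k)
  have h := key (famN e e E2) (famN_pt he he hE2)
  have h2 : _ ∈ S := h
  convert h2 using 1
  funext p
  rcases p with a | ⟨⟨_ | k, η⟩, i⟩
  · rfl
  · simp only [Function.comp, fS, Sum.elim_inr, tpx, cd]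
    split_ifs
    · exact congrArg (fun z => u none z i) (he' η).symm
    · exact congrArg (fun z => u (some none) z i) (he' η).symm
    · rfl
  · exact congrArg (fun z => u (some (some k)) z i) (hE2' k η).symm

end

theorem cond3 {X K ι I : Type} {lt : Bool → I → I → Prop} (hB : BT lt) {π : I} {Y : Sys M}
    {x : X → M} {w : I → ι → M} {u : Option (Option K) → Nd → ι → M} {m : ℕ} {dg : K → ℕ}
    (hu : ∀ S, Y.D S → ∀ E E' : ∀ k : Option (Option K), LN (dgo m (dgo m dg) k) → Nd,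
      (∀ k, Pt ndl _ (E k)) → (∀ k, Pt ndl _ (E' k)) →
      tpl (Sum.elim x (fun p : I × ι => w p.1 p.2)) u E ∈ S →
      tpl (Sum.elim x (fun p : I × ι => w p.1 p.2)) u E' ∈ S)
    {S : Set (X ⊕ ((Σ k, LN (dgo (m + 1) dg k)) × ι) → M)} (hS : Y.D S)
    (hv : (tpl (Sum.elim x (fun p : I × ι => w p.1 p.2)) u
      (fam (m := m) (dg := dg) (fun η => η.1) (fun η => η.1) (fun _ η => η.1)) ∘ fp π) ∈ S)
    {E0 : LN (m + 1) → I} {E : ∀ k, LN (dg k) → Nd} (hE0 : Pt lt (m + 1) E0)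
    (hE : ∀ k, Pt ndl _ (E k)) (hr : E0 (rt (m + 1)) = π) {g : I → Nd}
    (hg : Gd lt g (Set.range E0)) :
    tpx x (cd lt π w u g) (fun k => u (some (some k))) E0 E ∈ S := by
  have hid : ∀ n : ℕ, Pt ndl n (fun η : LN n => η.1) := fun n η η' d hd => hd
  have hsub : ∀ d : Bool, Pt ndl m (fun η : LN m => g (E0 ⟨d :: η.1, by
      have := η.2; simp only [List.length_cons]; omega⟩)) := by
    intro d η η' d' hd
    refine hg.pt hE0 ⟨d :: η.1, _⟩ ⟨d :: η'.1, _⟩ d' ?_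
    show (d :: η.1) ++ [d'] <+: d :: η'.1
    obtain ⟨r, hr⟩ := hd
    exact ⟨r, by simp [← hr]⟩
  have h := hu {v | (v ∘ fp π) ∈ S} (Y.pull _ hS) _ (fam (m := m) (dg := dg)
    (fun η => g (E0 ⟨false :: η.1, by have := η.2; simp only [List.length_cons]; omega⟩))
    (fun η => g (E0 ⟨true :: η.1, by have := η.2; simp only [List.length_cons]; omega⟩)) E)
    (fam_pt (hid _) (hid _) (fun k => hid _)) (fam_pt (hsub _) (hsub _) hE) hv
  have h2 : _ ∈ S := h
  convert h2 using 1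
  have hlt : ∀ (d : Bool) (l : Nd) (h : (d :: l).length ≤ m + 1), lt d π (E0 ⟨d :: l, h⟩) := by
    intro d l h
    have := hE0 (rt (m + 1)) ⟨d :: l, h⟩ d ⟨l, rfl⟩
    rwa [hr] at this
  funext p
  rcases p with a | ⟨⟨_ | k, η⟩, i⟩
  · rfl
  · obtain ⟨_ | ⟨_ | _, l⟩, hη⟩ := η
    · have e : E0 ⟨[], hη⟩ = π := hr
      show cd lt π w u g (E0 ⟨[], hη⟩) i = w π i
      unfold cd
      rw [e, if_neg (irr hB _ _), if_neg (irr hB _ _)]
    · show cd lt π w u g (E0 ⟨false :: l, hη⟩) i = u none (g (E0 ⟨false :: l, _⟩)) i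
      unfold cd
      rw [if_pos (hlt _ _ _)]
    · show cd lt π w u g (E0 ⟨true :: l, hη⟩) i = u (some none) (g (E0 ⟨true :: l, _⟩)) i
      unfold cd
      rw [if_neg (fun h => by have := hB.uniq h (hlt true l hη); simp at this),
        if_pos (hlt _ _ _)]
  · rfl

/-- index map of the homogeneous conditions -/
def pA {X K ι I : Type} {n : ℕ} (E0 : LN n → I) (E : K → LN n → Nd) :
    X ⊕ (Option K × LN n × ι) → X ⊕ ((I × ι) ⊕ (K × Nd × ι))
  | .inl a => .inl a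
  | .inr (none, η, i) => .inr (.inl (E0 η, i))
  | .inr (some k, η, i) => .inr (.inr (k, E k η, i))

def pB {X K ι I : Type} {a : ℕ} {dg : K → ℕ} (E0 : LN a → I) (E : ∀ k, LN (dg k) → Nd) :
    X ⊕ ((Σ k, LN (dgo a dg k)) × ι) → X ⊕ ((I × ι) ⊕ (K × Nd × ι))
  | .inl a => .inl a
  | .inr (⟨none, η⟩, i) => .inr (.inl (E0 η, i))
  | .inr (⟨some k, η⟩, i) => .inr (.inr (k, E k η, i))

/-- saturation for the conditions of `Rz` -/
theorem rz_of {Y : Sys M} (hsat : SatP Y) {X ι K I : Type} {lt : Bool → I → I → Prop}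
    {x : X → M} {t : Option K → Nd → ι → M} {a : ℕ} {dg : K → ℕ} {F : FF M X ι K I a dg}
    (hF : ∀ q ∈ F, ∀ S ∈ q.2, Y.D S) (hfe : ∀ P : Finset I, ∃ g : I → Nd, Gd lt g P)
    (W : (I → Nd) → I → ι → M) (s : K → Nd → ι → M)
    (hA : ∀ n S, Y.D S → HK x t n S → ∀ (E0 : LN n → I) (E : K → LN n → Nd), Pt lt n E0 →
      (∀ k, Pt ndl n (E k)) → ∀ g, Gd lt g (Set.range E0) →
      Sum.elim x (fun p : Option K × LN n × ι => p.1.elim (W g (E0 p.2.1) p.2.2)
      (fun k => s k (E k p.2.1) p.2.2)) ∈ S)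
    (hBB : ∀ q ∈ F, ∀ (E0 : LN a → I) (E : ∀ k, LN (dg k) → Nd), Pt lt a E0 →
      (∀ k, Pt ndl _ (E k)) → E0 (rt a) = q.1 → ∀ S ∈ q.2, ∀ g, Gd lt g (Set.range E0) →
      tpx x (W g) s E0 E ∈ S) :
    ∃ w s, Rz Y lt x t F w s := by
  classical
  let Γ : Set (Set (X ⊕ ((I × ι) ⊕ (K × Nd × ι)) → M)) :=
    {C | (∃ (n : ℕ) (S : Set (X ⊕ (Option K × LN n × ι) → M)) (E0 : LN n → I)
        (E : K → LN n → Nd), Y.D S ∧ HK x t n S ∧ Pt lt n E0 ∧ (∀ k, Pt ndl n (E k)) ∧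
        C = {v | (v ∘ pA E0 E) ∈ S}) ∨
      ∃ q ∈ F, ∃ (E0 : LN a → I) (E : ∀ k, LN (dg k) → Nd), Pt lt a E0 ∧
      (∀ k, Pt ndl _ (E k)) ∧ E0 (rt a) = q.1 ∧ ∃ S ∈ q.2, C = {v | (v ∘ pB E0 E) ∈ S}}
  have key : ∀ C ∈ Γ, ∃ P : Finset I, ∀ g, Gd lt g P →
      Sum.elim x (Sum.elim (fun p : I × ι => W g p.1 p.2)
        (fun p : K × Nd × ι => s p.1 p.2.1 p.2.2)) ∈ C := by
    rintro C (⟨n, S, E0, E, hS, hHK, hE0, hE, rfl⟩ | ⟨q, hq, E0, E, hE0, hE, hr, S, hS, rfl⟩)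
    · haveI := fin_LN n
      refine ⟨(Set.finite_range E0).toFinset, fun g hg => ?_⟩
      rw [Set.Finite.coe_toFinset] at hg
      have h := hA n S hS hHK E0 E hE0 hE g hg
      show _ ∈ S
      convert h using 1
      funext p
      rcases p with a | ⟨_ | k, η, i⟩ <;> rfl
    · haveI := fin_LN a
      refine ⟨(Set.finite_range E0).toFinset, fun g hg => ?_⟩
      rw [Set.Finite.coe_toFinset] at hg
      have h := hBB q hq E0 E hE0 hE hr S hS g hg
      show _ ∈ S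
      convert h using 1
      funext p
      rcases p with a | ⟨⟨_ | k, η⟩, i⟩ <;> rfl
  obtain ⟨v, hv⟩ := hsat X _ x Γ (by
      rintro C (⟨n, S, E0, E, hS, hHK, hE0, hE, rfl⟩ | ⟨q, hq, E0, E, hE0, hE, hr, S, hS, rfl⟩)
      · exact Y.pull _ hS
      · exact Y.pull _ (hF q hq S hS)) (by
      intro Δ hΔ
      choose! P hP using key
      obtain ⟨g, hg⟩ := hfe (Δ.biUnion P)
      refine ⟨_, fun S hS => hP S (hΔ S hS) g ?_⟩
      intro a ha b hb d hd
      exact hg a (Finset.mem_coe.2 (Finset.mem_biUnion.2 ⟨S, hS, ha⟩)) b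
        (Finset.mem_coe.2 (Finset.mem_biUnion.2 ⟨S, hS, hb⟩)) d hd)
  refine ⟨fun ρ i => v (.inl (ρ, i)), fun k η i => v (.inr (k, η, i)), ?_, ?_⟩
  · intro n S hS hHK E0 E hE0 hE
    have h := hv _ (Or.inl ⟨n, S, E0, E, hS, hHK, hE0, hE, rfl⟩)
    have h2 : _ ∈ S := h
    convert h2 using 1
    funext p
    rcases p with a | ⟨_ | k, η, i⟩ <;> rfl
  · intro q hq E0 E hE0 hE hr S hS
    have h := hv _ (Or.inr ⟨q, hq, E0, E, hE0, hE, hr, S, hS, rfl⟩)
    have h2 : _ ∈ S := h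
    convert h2 using 1
    funext p
    rcases p with a | ⟨⟨_ | k, η⟩, i⟩ <;> rfl

theorem t_EXN : S_EXN.{u} := by
  intro M Y hsat hec X ι K I _ _ lt hB x t m dg hPH F hF π hπ hdn
  obtain ⟨w, s, hR1, hR2⟩ := hF.cons
  obtain ⟨C0, hC0, hC0'⟩ := hB.cp π false
  obtain ⟨C1, hC1, hC1'⟩ := hB.cp π true
  obtain ⟨u, hu1, hu2⟩ := hPH (X ⊕ (I × ι)) (Sum.elim x (fun p : I × ι => w p.1 p.2))
    (TT w s C0 C1)
  have hno : ∀ q ∈ F, ∀ d, ¬ lt d π q.1 := by
    intro q hq d h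
    obtain ⟨θ, hθ⟩ := hF.dn q hq π d h
    exact hπ θ hθ
  refine ⟨{S | Y.D S ∧ (tpl (Sum.elim x (fun p : I × ι => w p.1 p.2)) u
      (fam (m := m) (dg := dg) (fun η => η.1) (fun η => η.1) (fun _ η => η.1)) ∘ fp π) ∈ S},
    ?_, ?_, ?_, ?_⟩
  · rintro q (rfl | hq) q' (rfl | hq') h
    · rfl
    · exfalso
      apply hπ q'.2
      simp only at h
      rw [h]
      exact hq'
    · exfalso
      apply hπ q.2
      simp only at h
      rw [← h]
      exact hq
    · exact hF.fn q hq q' hq' h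
  · rintro q (rfl | hq)
    · exact ⟨_, rfl⟩
    · exact hF.tp q hq
  · rintro q (rfl | hq) ρ d h
    · obtain ⟨θ, hθ⟩ := hdn ρ d h
      exact ⟨θ, Or.inr hθ⟩
    · obtain ⟨θ, hθ⟩ := hF.dn q hq ρ d h
      exact ⟨θ, Or.inr hθ⟩
  · refine rz_of hsat ?_ ?_ (fun g => cd lt π w u g) (fun k => u (some (some k))) ?_ ?_
    · rintro q (rfl | hq) S hS
      · exact hS.1
      · obtain ⟨v, hv⟩ := hF.tp q hq
        rw [hv] at hS
        exact hS.1
    · intro P
      obtain ⟨g, hg⟩ := hB.fe P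
      exact ⟨g, fun a ha b hb d h => hg a ha b hb d h⟩
    · intro n S hS hHK E0 E hE0 hE g hg
      exact cond1 hB hC0 hC0' hC1 hC1' hu1 hS (hR1 n S hS hHK) hE0 hE hg
    · rintro q (rfl | hq) E0 E hE0 hE hr S hS g hg
      · exact cond3 hB hu2 hS.1 hS.2 hE0 hE hr hg
      · have hD : Y.D S := by
          obtain ⟨v, hv⟩ := hF.tp q hq
          rw [hv] at hS
          exact hS.1
        exact cond2 hB hC0 hC0' hC1 hC1' hu1 hD (hno q hq)
          (fun E0 E h1 h2 h3 => hR2 q hq E0 E h1 h2 h3 S hS) hE0 hE hr hg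

end Pool.Agent.K1H28.PLG
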